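import Mathlib

/-!
The special one-relator monoid `⟨a, b, c | ababcc = 1⟩`: normal forms, centralizers, triviality of
the group of units.
-/

set_option autoImplicit false

namespace Pool.Agent.H14.Dio

/-- The defining word. -/
abbrev w6 : List (Fin 3) := [0, 1, 0, 1, 2, 2]

/-- The monoid `⟨a, b, c | ababcc = 1⟩`. -/
abbrev M : Type :=
  (conGen (fun x y : FreeMonoid (Fin 3) => x = FreeMonoid.ofList w6 ∧ y = 1)).Quotient

/-- The generators. -/
def of (i : Fin 3) : M :=
  (conGen (fun x y : FreeMonoid (Fin 3) => x = FreeMonoid.ofList w6 ∧ y = 1)).mk'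
    (FreeMonoid.of i)

/-- Evaluation of words. -/
def ev (l : List (Fin 3)) : M := (l.map of).prod

theorem ev_nil : ev [] = 1 := rfl

theorem ev_cons (i : Fin 3) (l : List (Fin 3)) : ev (i :: l) = of i * ev l := by
  simp [ev]

theorem ev_append (l l' : List (Fin 3)) : ev (l ++ l') = ev l * ev l' := by
  simp [ev]

theorem ev_eq_mk (l : List (Fin 3)) : ev l =
    (conGen (fun x y : FreeMonoid (Fin 3) => x = FreeMonoid.ofList w6 ∧ y = 1)).mk'
      (FreeMonoid.ofList l) := by
  induction l with
  | nil => rfl
  | cons i l ih =>
    rw [ev_cons, ih, of, ← map_mul]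
    rfl

theorem exists_word (m : M) : ∃ l, ev l = m := by
  obtain ⟨x, rfl⟩ := Con.mk'_surjective m
  exact ⟨FreeMonoid.toList x, ev_eq_mk _⟩

theorem ev_w6 : ev w6 = 1 := by
  rw [ev_eq_mk, ← map_one (Con.mk' _)]
  exact (Con.eq _).2 (ConGen.Rel.of _ _ ⟨rfl, rfl⟩)

section lift

variable {N : Type*} [Monoid N]

/-- Homomorphisms out of `M`. -/
def liftM (f : Fin 3 → N) (h : (w6.map f).prod = 1) : M →* N :=
  Con.lift _ (FreeMonoid.lift f) (Con.conGen_le.2 (by
    rintro x y ⟨rfl, rfl⟩
    show FreeMonoid.lift f _ = FreeMonoid.lift f _
    rw [map_one, ← h, FreeMonoid.lift_apply]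
    rfl))

theorem liftM_of (f : Fin 3 → N) (h : (w6.map f).prod = 1) (i : Fin 3) :
    liftM f h (of i) = f i := by
  unfold liftM of
  exact FreeMonoid.lift_eval_of f i

theorem liftM_ev (f : Fin 3 → N) (h : (w6.map f).prod = 1) (l : List (Fin 3)) :
    liftM f h (ev l) = (l.map f).prod := by
  induction l with
  | nil => simp [ev]
  | cons i l ih => rw [ev_cons, map_mul, liftM_of, ih]; simp

end lift

/-! ### The action on stacks -/

/-- Push a letter on a stack, and cancel `ababcc`. -/
def step (s : List (Fin 3)) (i : Fin 3) : List (Fin 3) :=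
  if i = 2 ∧ s.take 5 = [2, 1, 0, 1, 0] then s.drop 5 else i :: s

/-- The action. -/
def act : M →* (Function.End (List (Fin 3)))ᵐᵒᵖ :=
  liftM (fun i => MulOpposite.op (fun s => step s i)) (by
    apply MulOpposite.unop_injective
    funext s
    show step (step (step (step (step (step s 0) 1) 0) 1) 2) 2 = s
    simp [step])

def run (m : M) (s : List (Fin 3)) : List (Fin 3) := (act m).unop s

theorem run_mul (m m' : M) (s : List (Fin 3)) : run (m * m') s = run m' (run m s) := by
  unfold run
  rw [map_mul]
  rfl

theorem run_one (s : List (Fin 3)) : run 1 s = s := by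
  unfold run
  rw [map_one]
  rfl

theorem run_of (i : Fin 3) (s : List (Fin 3)) : run (of i) s = step s i := by
  unfold run act
  rw [liftM_of]
  rfl

theorem run_ev (l : List (Fin 3)) (s : List (Fin 3)) : run (ev l) s = l.foldl step s := by
  induction l generalizing s with
  | nil => simp [ev_nil, run_one]
  | cons i l ih => rw [ev_cons, run_mul, ih, run_of]; rfl

theorem ev_step (s : List (Fin 3)) (i : Fin 3) :
    ev (step s i).reverse = ev s.reverse * of i := by
  unfold step
  split_ifs with h
  · obtain ⟨rfl, h⟩ := h
    have hs : s = [2, 1, 0, 1, 0] ++ s.drop 5 := by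
      conv_lhs => rw [← List.take_append_drop 5 s, h]
    conv_rhs => rw [hs]
    rw [List.reverse_append, ev_append, mul_assoc]
    have : ev ([2, 1, 0, 1, 0] : List (Fin 3)).reverse * of 2 = 1 := by
      have h6 := ev_w6
      simp only [w6, ev_cons, ev_nil, mul_one, List.reverse_cons, List.reverse_nil, List.nil_append,
        List.cons_append, mul_assoc] at h6 ⊢
      exact h6
    rw [this, mul_one]
  · rw [List.reverse_cons, ev_append, ev_cons, ev_nil, mul_one]

theorem ev_run (m : M) (s : List (Fin 3)) : ev (run m s).reverse = ev s.reverse * m := by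
  obtain ⟨l, rfl⟩ := exists_word m
  induction l generalizing s with
  | nil => simp [ev_nil, run_one]
  | cons i l ih => rw [ev_cons, run_mul, ih, run_of, ev_step, mul_assoc]

/-- The normal form, as a stack (last letter first). -/
def nf (m : M) : List (Fin 3) := run m []

theorem ev_nf (m : M) : ev (nf m).reverse = m := by
  rw [nf, ev_run]; simp [ev_nil]

theorem nf_mul (m m' : M) : nf (m * m') = run m' (nf m) := run_mul _ _ _

theorem nf_inj {m m' : M} (h : nf m = nf m') : m = m' := by
  rw [← ev_nf m, ← ev_nf m', h]

theorem nf_one : nf 1 = [] := run_one _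

theorem length_step (s : List (Fin 3)) (i : Fin 3) : (step s i).length ≤ s.length + 1 := by
  unfold step
  split_ifs with h
  · simp; omega
  · simp

theorem step_eq_of_length {s : List (Fin 3)} {i : Fin 3} (h : (step s i).length = s.length + 1) :
    step s i = i :: s := by
  unfold step at h ⊢
  split_ifs at h ⊢ with h1
  · simp at h; omega
  · rfl

theorem length_foldl (l s : List (Fin 3)) : (l.foldl step s).length ≤ s.length + l.length := by
  induction l generalizing s with
  | nil => simp
  | cons i l ih =>
    have := ih (step s i)
    have := length_step s i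
    simp only [List.foldl_cons, List.length_cons]
    omega

theorem foldl_eq_of_length {l s : List (Fin 3)}
    (h : (l.foldl step s).length = s.length + l.length) : l.foldl step s = l.reverse ++ s := by
  induction l generalizing s with
  | nil => simp
  | cons i l ih =>
    simp only [List.foldl_cons, List.length_cons] at h ⊢
    have h1 := length_foldl l (step s i)
    have h2 := length_step s i
    have h3 : step s i = i :: s := step_eq_of_length (by omega)
    rw [ih (by omega), h3]
    simp

/-- A stack such that nothing that is pushed on it interacts with it. -/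
def Safe (s : List (Fin 3)) : Prop := ∃ r, s = 2 :: r ∧ r.head? ≠ some 1

theorem step_append {s : List (Fin 3)} (hs : Safe s) (l : List (Fin 3)) (i : Fin 3) :
    step (l ++ s) i = step l i ++ s := by
  obtain ⟨r, rfl, hr⟩ := hs
  rcases l with _ | ⟨x1, _ | ⟨x2, _ | ⟨x3, _ | ⟨x4, _ | ⟨x5, l⟩⟩⟩⟩⟩
  · have : ¬ (List.take 5 (2 :: r) = [2, 1, 0, 1, 0]) := by
      intro h
      cases r with
      | nil => simp at h
      | cons y r =>
        simp at h hr
        exact hr h.1
    unfold step
    rw [if_neg (fun h => this (by simpa using h.2)), if_neg (by simp)]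
    rfl
  · simp [step]
  · simp [step]
  · simp [step]
  · simp [step]
  · simp only [step, List.cons_append, List.take_succ_cons, List.take_zero, List.drop_succ_cons,
      List.drop_zero]
    split_ifs <;> simp

theorem foldl_append {s : List (Fin 3)} (hs : Safe s) (l t : List (Fin 3)) :
    t.foldl step (l ++ s) = t.foldl step l ++ s := by
  induction t generalizing l with
  | nil => rfl
  | cons i t ih => rw [List.foldl_cons, List.foldl_cons, step_append hs, ih]

theorem run_append {s : List (Fin 3)} (hs : Safe s) (m : M) : run m s = nf m ++ s := by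
  obtain ⟨t, rfl⟩ := exists_word m
  rw [nf, run_ev, run_ev]
  exact foldl_append hs [] t

/-- Elements commuting with an element with a safe normal form. -/
theorem comm_lists {W y : M} (hW : Safe (nf W)) (h : y * W = W * y) :
    nf y ++ nf W = nf W ++ nf y := by
  have h1 : nf (W * y) = nf y ++ nf W := by rw [nf_mul, run_append hW]
  have h2 : nf (y * W) = (nf W).reverse.foldl step (nf y) := by
    rw [nf_mul, ← run_ev, ev_nf]
  have h3 : (nf (y * W)).length = (nf y).length + (nf W).reverse.length := by
    rw [h, h1]; simp
  rw [h2] at h3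
  rw [← h1, ← h, h2, foldl_eq_of_length h3, List.reverse_reverse]

theorem list_comm_single {α : Type*} (x : α) (l : List α) (h : l ++ [x] = [x] ++ l) :
    l = List.replicate l.length x := by
  induction l with
  | nil => rfl
  | cons y l ih =>
    simp only [List.cons_append, List.nil_append, List.cons.injEq] at h
    obtain ⟨rfl, h⟩ := h
    rw [List.length_cons, List.replicate_succ, ← ih (by simpa using h)]

theorem list_comm_count {α : Type*} [DecidableEq α] (x : α) (S : List α) (hS : S.count x = 1) :
    ∀ (k : ℕ) (L : List α), L.length ≤ k → L ++ S = S ++ L →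
      ∃ r, L = (List.replicate r S).flatten := by
  have hS0 : S ≠ [] := by rintro rfl; simp at hS
  intro k
  induction k with
  | zero =>
    intro L hL h
    refine ⟨0, ?_⟩
    have : L.length = 0 := by omega
    simpa using List.length_eq_zero_iff.1 this
  | succ k ih =>
    intro L hL h
    rcases List.append_eq_append_iff.1 h with ⟨Z, hS', h2⟩ | ⟨Z, hL', h2⟩
    · -- `S = L ++ Z`, and `S = Z ++ L`
      rcases List.eq_nil_or_concat' L with rfl | ⟨L0, y, hL0⟩
      · exact ⟨0, by simp⟩
      rcases Z with _ | ⟨z, Z⟩
      · refine ⟨1, ?_⟩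
        simp at hS'
        simp [hS']
      exfalso
      have hL1 : 0 < L.length := by rw [hL0]; simp
      have hc : (L ++ (z :: Z)).count x = 1 := by rw [← hS']; exact hS
      rw [List.count_append] at hc
      have e : (L ++ (z :: Z)).idxOf x = ((z :: Z) ++ L).idxOf x := by rw [← hS', h2]
      by_cases hx : x ∈ L
      · have h3 : 0 < L.count x := List.count_pos_iff.2 hx
        have h4 : x ∉ (z :: Z) := by
          rw [← List.count_eq_zero]; omega
        rw [List.idxOf_append_of_mem hx, List.idxOf_append_of_notMem h4] at e
        simp at e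
      · have h3 : L.count x = 0 := List.count_eq_zero.2 hx
        have h4 : x ∈ (z :: Z) := by
          rw [← List.count_pos_iff]; omega
        rw [List.idxOf_append_of_notMem hx, List.idxOf_append_of_mem h4] at e
        omega
    · -- `L = S ++ Z`
      subst hL'
      have hpos : 0 < S.length := List.length_pos_iff.2 hS0
      obtain ⟨r, hr⟩ := ih Z (by simp at hL; omega) (by
        simpa using h)
      exact ⟨r + 1, by rw [List.replicate_succ, List.flatten_cons, ← hr]⟩

/-! ### Special elements -/

def a : M := of 0
def b : M := of 1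
def c : M := of 2
/-- `u = abccc`. -/
def u : M := a * b * c * c * c
/-- `κ = babcc`, so that `a κ = 1`. -/
def kap : M := b * a * b * c * c
/-- `α = abcc`, so that `a b α = 1`. -/
def al : M := a * b * c * c

theorem rel6 : a * b * a * b * c * c = 1 := by
  have h := ev_w6
  simp only [w6, ev_cons, ev_nil, mul_one] at h
  simpa only [a, b, c, mul_assoc] using h

theorem a_kap : a * kap = 1 := by
  rw [← rel6]; simp only [kap, mul_assoc]

theorem ab_al : a * b * al = 1 := by
  rw [← rel6]; simp only [al, mul_assoc]

theorem al_c : al * c = u := rfl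

theorem run_pow_c (n : ℕ) (s : List (Fin 3)) (hs : Safe s) :
    run (c ^ n) s = List.replicate n 2 ++ s := by
  induction n with
  | zero => simp [run_one]
  | succ n ih =>
    rw [pow_succ, run_mul, ih, c, run_of, step_append hs]
    have : step (List.replicate n 2) 2 = List.replicate (n + 1) 2 := by
      unfold step
      rw [if_neg, ← List.replicate_succ]
      rintro ⟨-, h⟩
      rcases n with _ | _ | n
      · simp at h
      · simp at h
      · simp [List.replicate_succ] at h
    rw [this]

theorem nf_c : nf c = [2] := by
  rw [nf, c, run_of]; simp [step]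

theorem safe_c : Safe (nf c) := ⟨[], nf_c, by simp⟩

theorem comm_c {t : M} : t * c = c * t ↔ ∃ n : ℕ, t = c ^ n := by
  constructor
  · intro h
    have h1 := comm_lists safe_c h
    rw [nf_c] at h1
    have h2 := list_comm_single 2 (nf t) h1
    refine ⟨(nf t).length, ?_⟩
    have h3 := ev_nf t
    generalize (nf t).length = k at h2 ⊢
    rw [h2, List.reverse_replicate] at h3
    rw [← h3]
    simp [ev, c]
  · rintro ⟨n, rfl⟩
    exact (Commute.pow_self c n).eq

theorem nf_W (n : ℕ) : nf (c ^ n * u) = [2, 2, 2, 1, 0] ++ List.replicate n 2 := by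
  have h1 : nf (c ^ n) = List.replicate n 2 := by
    have := run_pow_c n [2] ⟨[], rfl, by simp⟩
    have h2 : nf (c ^ (n + 1)) = List.replicate n 2 ++ [2] := by
      rw [pow_succ', nf_mul, nf_c, this]
    clear this
    rcases n with _ | n
    · simp [nf_one]
    · rw [pow_succ', nf_mul, nf_c, run_pow_c n [2] ⟨[], rfl, by simp⟩]
      rw [← List.replicate_succ']
  rw [nf_mul, h1]
  have e : u = ev [0, 1, 2, 2, 2] := by
    simp only [ev_cons, ev_nil, mul_one, u, a, b, c, mul_assoc]
  rw [e, run_ev]
  rcases n with _ | _ | n
  · rfl
  · rfl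
  · simp [step, List.replicate_succ]

theorem safe_W (n : ℕ) : Safe (nf (c ^ n * u)) :=
  ⟨[2, 2, 1, 0] ++ List.replicate n 2, by rw [nf_W]; rfl, by simp⟩

theorem ev_flatten (r : ℕ) (l : List (Fin 3)) :
    ev ((List.replicate r l).flatten) = ev l ^ r := by
  induction r with
  | zero => simp [ev]
  | succ r ih => rw [List.replicate_succ, List.flatten_cons, ev_append, ih, pow_succ']

theorem comm_W {n : ℕ} {y : M} : y * (c ^ n * u) = (c ^ n * u) * y ↔
    ∃ r : ℕ, y = (c ^ n * u) ^ r := by
  constructor
  · intro h
    have h1 := comm_lists (safe_W n) h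
    have hcount : (nf (c ^ n * u)).count 0 = 1 := by
      rw [nf_W, List.count_append, List.count_replicate]
      simp
    obtain ⟨r, hr⟩ := list_comm_count 0 _ hcount _ _ le_rfl h1
    refine ⟨r, ?_⟩
    rw [← ev_nf y, hr, List.reverse_flatten]
    have : (List.map List.reverse (List.replicate r (nf (c ^ n * u)))).reverse
        = List.replicate r (nf (c ^ n * u)).reverse := by
      rw [List.map_replicate, List.reverse_replicate]
    rw [this, ev_flatten, ev_nf]
  · rintro ⟨r, rfl⟩
    exact (Commute.pow_self _ r).eq

theorem comm_u {y : M} : y * u = u * y ↔ ∃ r : ℕ, y = u ^ r := by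
  have := comm_W (n := 0) (y := y)
  simpa using this

/-! ### The group of units -/

theorem getLast_foldl {i : Fin 3} (hi : i ≠ 0) (l s : List (Fin 3)) :
    ∃ s', l.foldl step (s ++ [i]) = s' ++ [i] := by
  induction l generalizing s with
  | nil => exact ⟨s, rfl⟩
  | cons j l ih =>
    have : ∃ s', step (s ++ [i]) j = s' ++ [i] := by
      unfold step
      split_ifs with h
      · obtain ⟨-, h⟩ := h
        rcases s with _ | ⟨x1, _ | ⟨x2, _ | ⟨x3, _ | ⟨x4, _ | ⟨x5, s⟩⟩⟩⟩⟩
        · simp at h
        · simp at h
        · simp at h
        · simp at h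
        · simp at h
          exact absurd h.2.2.2.2 hi
        · exact ⟨s, by simp⟩
      · exact ⟨j :: s, rfl⟩
    obtain ⟨s', hs'⟩ := this
    rw [List.foldl_cons, hs']
    exact ih s'

/-- If `l` evaluates to `1`, then its first letter is `a`. -/
theorem head_of_foldl {i : Fin 3} {l : List (Fin 3)} (h : (i :: l).foldl step [] = []) :
    i = 0 := by
  by_contra hi
  rw [List.foldl_cons] at h
  have e : step [] i = [] ++ [i] := by simp [step]
  rw [e] at h
  obtain ⟨s', hs'⟩ := getLast_foldl hi l []
  rw [hs'] at h
  simp at h

/-- If `l` evaluates to `1`, then its last letter is `c`. -/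
theorem last_of_foldl {i : Fin 3} {l : List (Fin 3)} (h : (l ++ [i]).foldl step [] = []) :
    i = 2 := by
  rw [List.foldl_append] at h
  simp only [List.foldl_cons, List.foldl_nil] at h
  unfold step at h
  split_ifs at h with h1
  exact h1.1

/-- A word in normal form that starts with `a` does not interact with a stack ending with `c`. -/
theorem foldl_c {g : List (Fin 3)} (hg : g.foldl step [] = g.reverse) (s : List (Fin 3))
    (h0 : g.head? = some 0) : g.foldl step (2 :: s) = g.reverse ++ (2 :: s) := by
  have key : ∀ (k : ℕ) (g1 : List (Fin 3)), g1.length = k → g1 <+: g →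
      g1.foldl step (2 :: s) = g1.reverse ++ (2 :: s) := by
    intro k
    induction k with
    | zero =>
      intro g1 h1 _
      rw [List.length_eq_zero_iff.1 h1]; rfl
    | succ k ih =>
      intro g1 h1 hpre
      rcases List.eq_nil_or_concat' g1 with rfl | ⟨g2, i, rfl⟩
      · simp at h1
      have hg2 : g2 <+: g := (List.prefix_append _ _).trans hpre
      rw [List.foldl_append, ih g2 (by simpa using h1) hg2]
      simp only [List.foldl_cons, List.foldl_nil]
      -- the run from the empty stack does not cancel
      obtain ⟨t, ht⟩ := hpre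
      have hnc : (g2 ++ [i]).foldl step [] = (g2 ++ [i]).reverse := by
        rw [← ht, List.foldl_append, List.reverse_append] at hg
        have l1 := length_foldl t ((g2 ++ [i]).foldl step [])
        have l2 := length_foldl (g2 ++ [i]) []
        have l3 : ((g2 ++ [i]).foldl step []).length = ([] : List (Fin 3)).length + (g2 ++ [i]).length := by
          rw [hg] at l1
          simp at l1 l2 ⊢
          omega
        have := foldl_eq_of_length l3
        simpa using this
      have hnc2 : g2.foldl step [] = g2.reverse := by
        rw [List.foldl_append] at hnc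
        have l1 := length_foldl [i] (g2.foldl step [])
        have l2 := length_foldl g2 []
        have l3 : (g2.foldl step []).length = ([] : List (Fin 3)).length + g2.length := by
          rw [hnc] at l1
          simp at l1 l2 ⊢
          omega
        have := foldl_eq_of_length l3
        simpa using this
      rw [List.foldl_append, hnc2] at hnc
      simp only [List.foldl_cons, List.foldl_nil, List.reverse_append, List.reverse_cons,
        List.reverse_nil, List.nil_append, List.cons_append] at hnc ⊢
      -- now a case analysis on the length of g2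
      have hhead : g2.reverse = [] → i = 0 := by
        intro h
        rw [List.reverse_eq_nil_iff] at h
        subst h
        rw [← ht] at h0
        simpa using h0
      generalize g2.reverse = L at hnc hhead ⊢
      rcases L with _ | ⟨x1, _ | ⟨x2, _ | ⟨x3, _ | ⟨x4, _ | ⟨x5, L⟩⟩⟩⟩⟩
      · rw [hhead rfl]
        simp [step]
      · simp [step]
      · simp [step]
      · simp [step]
      · simp [step]
      · unfold step at hnc ⊢
        simp only [List.cons_append, List.take_succ_cons, List.take_zero, List.drop_succ_cons,
          List.drop_zero] at hnc ⊢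
        split_ifs at hnc ⊢ with h3
        · have := congrArg List.length hnc
          simp at this
          omega
        · rfl
  exact key _ g rfl (List.prefix_refl _)

theorem unit_eq_one {x y : M} (h1 : x * y = 1) (h2 : y * x = 1) : x = 1 := by
  by_contra hx
  have hy : y ≠ 1 := by
    rintro rfl
    rw [mul_one] at h1
    exact hx h1
  have hnx : nf x ≠ [] := fun h => hx (nf_inj (by rw [h, nf_one]))
  have hny : nf y ≠ [] := fun h => hy (nf_inj (by rw [h, nf_one]))
  -- the last letter of `x` is `c`
  have e1 : run (y * x) [] = [] := by rw [h2, run_one]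
  rw [← ev_nf y, ← ev_nf x, ← ev_append, run_ev] at e1
  obtain ⟨p, s, hs⟩ : ∃ p s, nf x = p :: s := by
    cases h : nf x with
    | nil => exact absurd h hnx
    | cons p s => exact ⟨p, s, rfl⟩
  have hp : p = 2 := by
    rw [hs, List.reverse_cons, ← List.append_assoc] at e1
    exact last_of_foldl e1
  -- the first letter of `y` is `a`
  obtain ⟨q, t, ht⟩ : ∃ q t, (nf y).reverse = q :: t := by
    cases h : (nf y).reverse with
    | nil => exact absurd (List.reverse_eq_nil_iff.1 h) hny
    | cons q t => exact ⟨q, t, rfl⟩
  have hq : q = 0 := by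
    rw [ht] at e1
    exact head_of_foldl e1
  have hirr : (nf y).reverse.foldl step [] = (nf y).reverse.reverse := by
    rw [← run_ev, ev_nf, List.reverse_reverse]; rfl
  have e2 : run y (nf x) = [] := by
    rw [← nf_mul, h1, nf_one]
  rw [hs, hp, ← ev_nf y, run_ev, foldl_c hirr s (by rw [ht, hq]; rfl)] at e2
  simp at e2

theorem units_eq_one (x : Mˣ) : x = 1 :=
  Units.ext (unit_eq_one x.mul_inv x.inv_mul)

end Pool.Agent.H14.Dio
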