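import Pool.Agent.H14.Dio.Mon

/-!
Multiplication is Diophantine in the monoid `⟨a, b, c | ababcc = 1⟩`.
-/

set_option autoImplicit false

namespace Pool.Agent.H14.Dio

open Matrix

/-! ### Soundness: a representation by matrices -/

/-- The images of the generators. -/
def mat : Fin 3 → Matrix (Fin 2) (Fin 2) ℚ
  | 0 => !![0, 1; 1, -1]
  | 1 => !![1, 1 / 6; 0, 1 / 6]
  | 2 => !![0, 2; 3, 0]

def rho : M →* Matrix (Fin 2) (Fin 2) ℚ :=
  liftM mat (by
    simp only [w6, List.map_cons, List.map_nil, List.prod_cons, List.prod_nil, mat, mul_one]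
    ext i j
    fin_cases i <;> fin_cases j <;> simp [Matrix.mul_apply, Fin.sum_univ_two] <;> norm_num)

theorem rho_of (i : Fin 3) : rho (of i) = mat i := liftM_of _ _ _

theorem rho_c : rho c = !![0, 2; 3, 0] := rho_of 2

theorem rho_cc : rho (c * c) = !![6, 0; 0, 6] := by
  rw [map_mul, rho_c]
  ext i j
  fin_cases i <;> fin_cases j <;> simp [Matrix.mul_apply, Fin.sum_univ_two] <;> norm_num

theorem rho_ab : rho (a * b) = !![0, 1 / 6; 1, 0] := by
  rw [map_mul, a, b, rho_of, rho_of, mat, mat]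
  ext i j
  fin_cases i <;> fin_cases j <;> simp [Matrix.mul_apply, Fin.sum_univ_two] <;> norm_num

theorem rho_u : rho u = Matrix.diagonal ![3, 12] := by
  have : u = (a * b) * (c * c) * c := by simp only [u, mul_assoc]
  rw [this, map_mul, map_mul, rho_ab, rho_cc, rho_c]
  ext i j
  fin_cases i <;> fin_cases j <;> simp [Matrix.mul_apply, Fin.sum_univ_two] <;> norm_num

theorem rho_kap : rho kap = !![1, 1; 1, 0] := by
  have : kap = b * (a * b) * (c * c) := by simp only [kap, mul_assoc]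
  rw [this, map_mul, map_mul, rho_ab, rho_cc, b, rho_of, mat]
  ext i j
  fin_cases i <;> fin_cases j <;> simp [Matrix.mul_apply, Fin.sum_univ_two] <;> norm_num

theorem rho_cc_pow (n : ℕ) : rho ((c * c) ^ n) = Matrix.diagonal ![(6 : ℚ) ^ n, 6 ^ n] := by
  have h : rho (c * c) = Matrix.diagonal ![(6 : ℚ), 6] := by
    rw [rho_cc]
    ext i j
    fin_cases i <;> fin_cases j <;> simp
  rw [map_pow, h, Matrix.diagonal_pow]
  congr 1
  ext i
  fin_cases i <;> simp

theorem rho_W (n : ℕ) : rho ((c * c) ^ n * u) = Matrix.diagonal ![(6 : ℚ) ^ n * 3, 6 ^ n * 12] := by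
  rw [map_mul, rho_cc_pow, rho_u, Matrix.diagonal_mul_diagonal]
  congr 1
  ext i
  fin_cases i <;> simp

theorem trace_kap_diag (x y : ℚ) :
    (!![1, 1; 1, 0] * Matrix.diagonal ![x, y] : Matrix (Fin 2) (Fin 2) ℚ).trace = x := by
  rw [Matrix.trace_fin_two, Matrix.mul_apply, Matrix.mul_apply, Fin.sum_univ_two,
    Fin.sum_univ_two]
  simp [Matrix.diagonal_apply]

theorem trace_left (n r : ℕ) :
    (rho (kap * ((c * c) ^ n * u) ^ r)).trace = ((6 : ℚ) ^ n * 3) ^ r := by
  rw [map_mul, rho_kap, map_pow, rho_W, Matrix.diagonal_pow]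
  have : (![(6 : ℚ) ^ n * 3, 6 ^ n * 12] ^ r) = ![((6 : ℚ) ^ n * 3) ^ r, (6 ^ n * 12) ^ r] := by
    ext i
    fin_cases i <;> simp
  rw [this, trace_kap_diag]

theorem trace_right (k m : ℕ) :
    (rho (kap * ((c * c) ^ k * u ^ m))).trace = (6 : ℚ) ^ k * 3 ^ m := by
  rw [map_mul, rho_kap, map_mul, rho_cc_pow, map_pow, rho_u, Matrix.diagonal_pow,
    Matrix.diagonal_mul_diagonal]
  have : (fun i => (![(6 : ℚ) ^ k, 6 ^ k] : Fin 2 → ℚ) i * (![(3 : ℚ), 12] ^ m) i) =
      ![(6 : ℚ) ^ k * 3 ^ m, 6 ^ k * 12 ^ m] := by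
    ext i
    fin_cases i <;> simp
  rw [this, trace_kap_diag]

/-- The relation: two elements are conjugate in a special way. -/
def D (y y' : M) : Prop := ∃ x v : M, x * (kap * y) * v = 1 ∧ x * v * (kap * y') = 1

theorem trace_eq_of_D {y y' : M} (h : D y y') :
    (rho (kap * y)).trace = (rho (kap * y')).trace := by
  obtain ⟨x, v, h1, h2⟩ := h
  have h1' := congrArg rho h1
  have h2' := congrArg rho h2
  rw [map_mul, map_mul, map_one] at h1' h2'
  generalize rho x = P at *
  generalize rho v = V at *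
  generalize rho (kap * y) = Y at *
  generalize rho (kap * y') = Y' at *
  have e1 : V * (P * Y) = 1 := mul_eq_one_comm.1 h1'
  have e2 : (V * Y') * P = 1 := by
    apply mul_eq_one_comm.1
    rw [← mul_assoc]
    exact h2'
  have e3 : P * (Y * V) = 1 := by rw [← mul_assoc]; exact h1'
  have e4 : V * Y' = Y * V := by
    calc V * Y' = (V * Y') * (P * (Y * V)) := by rw [e3, mul_one]
      _ = (V * Y' * P) * (Y * V) := by rw [mul_assoc (V * Y')]
      _ = Y * V := by rw [e2, one_mul]
  calc Y.trace = (Y * (V * (P * Y))).trace := by rw [e1, mul_one]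
    _ = ((Y * V) * (P * Y)).trace := by rw [mul_assoc]
    _ = ((V * Y') * (P * Y)).trace := by rw [e4]
    _ = (V * (Y' * (P * Y))).trace := by rw [mul_assoc]
    _ = ((Y' * (P * Y)) * V).trace := Matrix.trace_mul_comm _ _
    _ = (Y' * (P * Y * V)).trace := by rw [mul_assoc]
    _ = Y'.trace := by rw [h1', mul_one]

theorem arith {n r k m : ℕ} (h : ((6 : ℚ) ^ n * 3) ^ r = 6 ^ k * 3 ^ m) : k = n * m := by
  have h1 : ((6 : ℕ) ^ n * 3) ^ r = 6 ^ k * 3 ^ m := by exact_mod_cast h
  have h2 : (2 : ℕ) ^ (n * r) * 3 ^ (n * r + r) = 2 ^ k * 3 ^ (k + m) := by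
    calc (2 : ℕ) ^ (n * r) * 3 ^ (n * r + r) = ((6 : ℕ) ^ n * 3) ^ r := by
          rw [show (6 : ℕ) = 2 * 3 by norm_num, mul_pow, mul_pow, mul_pow, pow_add, ← pow_mul,
            ← pow_mul]
          ring
      _ = 6 ^ k * 3 ^ m := h1
      _ = 2 ^ k * 3 ^ (k + m) := by
          rw [show (6 : ℕ) = 2 * 3 by norm_num, mul_pow, pow_add]
          ring
  have f2 := congrArg (fun x => x.factorization 2) h2
  have f3 := congrArg (fun x => x.factorization 3) h2
  rw [Nat.factorization_mul (by positivity) (by positivity),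
    Nat.factorization_mul (by positivity) (by positivity)] at f2 f3
  simp only [Nat.factorization_pow, Finsupp.add_apply, Finsupp.smul_apply,
    Nat.Prime.factorization Nat.prime_two, Nat.Prime.factorization Nat.prime_three,
    smul_eq_mul] at f2 f3
  norm_num at f2 f3
  have hr : r = m := by omega
  rw [← f2, hr]

/-! ### Completeness: chains of common left inverses -/

/-- Common left inverse. -/
def E (R R' : M) : Prop := ∃ x : M, x * R = 1 ∧ x * R' = 1

theorem E.symm {R R' : M} (h : E R R') : E R' R := by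
  obtain ⟨x, h1, h2⟩ := h
  exact ⟨x, h2, h1⟩

theorem E.mul {R R' S S' : M} (h : E R R') (h' : E S S') : E (R * S) (R' * S') := by
  obtain ⟨x, h1, h2⟩ := h
  obtain ⟨y, h3, h4⟩ := h'
  refine ⟨y * x, ?_, ?_⟩
  · rw [mul_assoc, ← mul_assoc x, h1, one_mul, h3]
  · rw [mul_assoc, ← mul_assoc x, h2, one_mul, h4]

/-- Left units. -/
def LU (R : M) : Prop := E R R

theorem LU.mul {R S : M} (h : LU R) (h' : LU S) : LU (R * S) := E.mul h h'

theorem LU.one : LU 1 := ⟨1, by simp, by simp⟩

theorem LU.pow {R : M} (h : LU R) (n : ℕ) : LU (R ^ n) := by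
  induction n with
  | zero => rw [pow_zero]; exact LU.one
  | succ n ih => rw [pow_succ]; exact ih.mul h

/-- Chains. -/
def Es : M → M → Prop := Relation.ReflTransGen E

theorem Es.refl (R : M) : Es R R := Relation.ReflTransGen.refl

theorem Es.trans {R S T : M} (h : Es R S) (h' : Es S T) : Es R T :=
  Relation.ReflTransGen.trans h h'

theorem Es.of {R S : M} (h : E R S) : Es R S := Relation.ReflTransGen.single h

theorem Es.symm {R S : M} (h : Es R S) : Es S R := by
  induction h with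
  | refl => exact Es.refl _
  | tail _ h ih => exact (Es.of h.symm).trans ih

theorem Es.mul_left {T R S : M} (hT : LU T) (h : Es R S) : Es (T * R) (T * S) := by
  induction h with
  | refl => exact Es.refl _
  | tail _ h ih => exact ih.trans (Es.of (E.mul hT h))

theorem Es.mul_right {T R S : M} (hT : LU T) (h : Es R S) : Es (R * T) (S * T) := by
  induction h with
  | refl => exact Es.refl _
  | tail _ h ih => exact ih.trans (Es.of (E.mul h hT))

/-- The row trick. -/
theorem exists_of_Es {R R' : M} (h : Es R R') (hR : LU R) :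
    ∃ x v : M, x * R * v = 1 ∧ x * v * R' = 1 := by
  induction h using Relation.ReflTransGen.head_induction_on with
  | refl =>
    obtain ⟨x, h1, -⟩ := hR
    exact ⟨x, 1, by rw [h1, one_mul], by rw [mul_one, h1]⟩
  | head h _ ih =>
    rename_i R R1 _
    obtain ⟨x0, h1, h2⟩ := h
    obtain ⟨x1, v1, h3, h4⟩ := ih ⟨x0, h2, h2⟩
    refine ⟨x1 * x0, R1 * v1, ?_, ?_⟩
    · rw [mul_assoc x1 x0 R, h1, mul_one, ← mul_assoc, h3]
    · rw [← mul_assoc (x1 * x0), mul_assoc x1 x0 R1, h2, mul_one, h4]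

theorem LU_kap : LU kap := ⟨a, a_kap, a_kap⟩
theorem LU_al : LU al := ⟨a * b, ab_al, ab_al⟩
theorem LU_c : LU c := ⟨a * b * a * b * c, rel6, rel6⟩
theorem LU_u : LU u := LU_al.mul LU_c

theorem E_cc : E (c * c) (al * al) := by
  refine ⟨a * b * a * b, ?_, ?_⟩
  · rw [← mul_assoc]; exact rel6
  · calc a * b * a * b * (al * al) = (a * b) * ((a * b * al) * al) := by simp only [mul_assoc]
      _ = 1 := by rw [ab_al, one_mul, ab_al]

theorem Es_cc_al : Es (c * c * al) (al * (c * c)) := by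
  refine (Es.of (E.mul E_cc LU_al)).trans ?_
  rw [mul_assoc]
  exact Es.of (E.mul LU_al E_cc.symm)

theorem Es_cc_u : Es (c * c * u) (u * (c * c)) := by
  have h := Es.mul_right LU_c Es_cc_al
  have e1 : c * c * al * c = c * c * u := by rw [mul_assoc _ al c, al_c]
  have e2 : al * (c * c) * c = u * (c * c) := by rw [← al_c]; simp only [mul_assoc]
  rwa [e1, e2] at h

theorem Es_comm_pow {z w : M} (hz : LU z) (h : Es (z * w) (w * z)) (n : ℕ) :
    Es (z ^ n * w) (w * z ^ n) := by
  induction n with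
  | zero => rw [pow_zero, one_mul, mul_one]; exact Es.refl _
  | succ n ih =>
    have h1 : Es (z ^ n * (z * w)) (z ^ n * (w * z)) := Es.mul_left (hz.pow n) h
    have h2 : Es (z ^ n * w * z) (w * z ^ n * z) := Es.mul_right hz ih
    rw [pow_succ, mul_assoc, ← mul_assoc w]
    refine h1.trans ?_
    rw [← mul_assoc]
    exact h2

theorem Es_comm_pow' {z w : M} (hz : LU z) (hw : LU w) (h : Es (z * w) (w * z)) (n m : ℕ) :
    Es (z ^ n * w ^ m) (w ^ m * z ^ n) :=
  (Es_comm_pow hw (Es_comm_pow hz h n).symm m).symm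

theorem Es_pow {z w : M} (hz : LU z) (hw : LU w) (h : Es (z * w) (w * z)) (n m : ℕ) :
    Es ((z ^ n * w) ^ m) (z ^ (n * m) * w ^ m) := by
  induction m with
  | zero => simp only [pow_zero, mul_zero, mul_one]; exact Es.refl _
  | succ m ih =>
    have h1 : Es ((z ^ n * w) ^ m * (z ^ n * w)) (z ^ (n * m) * w ^ m * (z ^ n * w)) :=
      Es.mul_right ((hz.pow n).mul hw) ih
    have h2 : Es (z ^ (n * m) * (w ^ m * z ^ n) * w) (z ^ (n * m) * (z ^ n * w ^ m) * w) :=
      Es.mul_right hw (Es.mul_left (hz.pow _) (Es_comm_pow' hz hw h n m).symm)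
    rw [pow_succ]
    refine h1.trans ?_
    have e1 : z ^ (n * m) * w ^ m * (z ^ n * w) = z ^ (n * m) * (w ^ m * z ^ n) * w := by
      simp only [mul_assoc]
    have e2 : z ^ (n * m) * (z ^ n * w ^ m) * w = z ^ (n * (m + 1)) * w ^ (m + 1) := by
      rw [mul_add, mul_one, pow_add, pow_succ w m]
      simp only [mul_assoc]
    rw [e1, ← e2]
    exact h2

theorem D_pow (n m : ℕ) : D (((c * c) ^ n * u) ^ m) ((c * c) ^ (n * m) * u ^ m) := by
  have hcc : LU (c * c) := LU_c.mul LU_c
  have h := Es.mul_left LU_kap (Es_pow hcc LU_u Es_cc_u n m)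
  exact exists_of_Es h (LU_kap.mul (((hcc.pow n).mul LU_u).pow m))

/-- **Multiplication is Diophantine.** -/
theorem mul_iff (n m k : ℕ) :
    (∃ y x v : M, y * (c ^ n * c ^ n * u) = (c ^ n * c ^ n * u) * y ∧
      x * (kap * y) * v = 1 ∧ x * v * (kap * (c ^ k * c ^ k * u ^ m)) = 1) ↔ k = n * m := by
  have e : ∀ n : ℕ, c ^ n * c ^ n = (c * c) ^ n := fun n => ((Commute.refl c).mul_pow n).symm
  constructor
  · rintro ⟨y, x, v, h1, h2, h3⟩
    rw [← pow_add] at h1
    obtain ⟨r, hr⟩ := comm_W.1 h1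
    rw [pow_add, e] at hr
    rw [e] at h3
    have h4 : D y ((c * c) ^ k * u ^ m) := ⟨x, v, h2, h3⟩
    have h5 := trace_eq_of_D h4
    rw [hr, trace_left, trace_right] at h5
    exact arith h5
  · rintro rfl
    obtain ⟨x, v, h2, h3⟩ := D_pow n m
    refine ⟨((c * c) ^ n * u) ^ m, x, v, ?_, h2, ?_⟩
    · rw [e]; exact (Commute.pow_self _ m).eq
    · rw [e]; exact h3

end Pool.Agent.H14.Dio
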