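import Pool.Agent.H14.Dio.Mul

/-!
Basic equations over `ℕ` translated to systems of equations over the monoid
`⟨a, b, c | ababcc = 1⟩`.
-/

set_option autoImplicit false

namespace Pool.Agent.H14.Dio

/-- A word in the generators and in variables. -/
abbrev Wd : Type := List (Fin 3 ⊕ ℕ)

/-- Evaluation. -/
def val (σ : ℕ → M) (w : Wd) : M := (w.map (Sum.elim of σ)).prod

theorem val_nil (σ : ℕ → M) : val σ [] = 1 := rfl

theorem val_cons (σ : ℕ → M) (x : Fin 3 ⊕ ℕ) (w : Wd) :
    val σ (x :: w) = Sum.elim of σ x * val σ w := by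
  simp [val]

theorem val_append (σ : ℕ → M) (w w' : Wd) : val σ (w ++ w') = val σ w * val σ w' := by
  simp [val]

theorem val_replicate (σ : ℕ → M) (x : Fin 3 ⊕ ℕ) (n : ℕ) :
    val σ (List.replicate n x) = (Sum.elim of σ x) ^ n := by
  simp [val]

/-- The variable of kind `t` with index `i`. -/
def vr (t i : ℕ) : Fin 3 ⊕ ℕ := Sum.inr (Nat.pair t i)

def wu : Wd := [Sum.inl 0, Sum.inl 1, Sum.inl 2, Sum.inl 2, Sum.inl 2]
def wk : Wd := [Sum.inl 1, Sum.inl 0, Sum.inl 1, Sum.inl 2, Sum.inl 2]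

theorem val_wu (σ : ℕ → M) : val σ wu = u := by
  simp [wu, val, u, a, b, c, mul_assoc]

theorem val_wk (σ : ℕ → M) : val σ wk = kap := by
  simp [wk, val, kap, a, b, c, mul_assoc]

/-- The three equations which say that `z = x * y`, where the kinds of variables are: `0` for
`c ^ n`, `1` for `u ^ n`, and `t`, `t + 1`, `t + 2` for the auxiliary variables. -/
def mulEqs (wx wz : Wd) (y t q : ℕ) : List (Wd × Wd) :=
  [([vr t q] ++ (wx ++ wx ++ wu), (wx ++ wx ++ wu) ++ [vr t q]),
   ([vr (t + 1) q] ++ (wk ++ [vr t q]) ++ [vr (t + 2) q], []),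
   ([vr (t + 1) q] ++ [vr (t + 2) q] ++ (wk ++ (wz ++ wz ++ [vr 1 y])), [])]

/-- The equations which say that the variables with index `i` of kinds `0`, `1` encode the same
number. -/
def linkEqs (i : ℕ) : List (Wd × Wd) :=
  ([vr 0 i, Sum.inl 2], [Sum.inl 2, vr 0 i]) ::
  ([vr 1 i] ++ wu, wu ++ [vr 1 i]) ::
  mulEqs [Sum.inl 2] [vr 0 i] i 2 i

/-- Basic equations. -/
inductive Bas
  | one (i : ℕ)
  | add (i j k : ℕ)
  | mul (i j k : ℕ)

/-- Satisfaction of a basic equation. -/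
def Bas.holds (x : ℕ → ℕ) : Bas → Prop
  | .one i => x i = 1
  | .add i j k => x i + x j = x k
  | .mul i j k => x i * x j = x k

def Bas.eqs : Bas → List (Wd × Wd)
  | .one i => linkEqs i ++ [([vr 0 i], [Sum.inl 2])]
  | .add i j k => linkEqs i ++ linkEqs j ++ linkEqs k ++ [([vr 0 i, vr 0 j], [vr 0 k])]
  | .mul i j k => linkEqs i ++ linkEqs j ++ linkEqs k ++
      mulEqs [vr 0 i] [vr 0 k] j 5 (Nat.pair i (Nat.pair j k))

/-- The system for a list of basic equations and the condition `x 0 = n`. -/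
def sys (L : List Bas) (n : ℕ) : List (Wd × Wd) :=
  ([vr 0 0], List.replicate n (Sum.inl 2)) :: (linkEqs 0 ++ L.flatMap Bas.eqs)

/-- `σ` solves `S`. -/
def Solves (σ : ℕ → M) (S : List (Wd × Wd)) : Prop := ∀ e ∈ S, val σ e.1 = val σ e.2

theorem solves_cons {σ : ℕ → M} {e : Wd × Wd} {S : List (Wd × Wd)} :
    Solves σ (e :: S) ↔ val σ e.1 = val σ e.2 ∧ Solves σ S := by
  simp [Solves]

theorem solves_append {σ : ℕ → M} {S S' : List (Wd × Wd)} :
    Solves σ (S ++ S') ↔ Solves σ S ∧ Solves σ S' := by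
  simp only [Solves, List.mem_append]
  constructor
  · intro h
    exact ⟨fun e he => h e (Or.inl he), fun e he => h e (Or.inr he)⟩
  · rintro ⟨h, h'⟩ e (he | he)
    · exact h e he
    · exact h' e he

theorem solves_nil {σ : ℕ → M} : Solves σ [] := by simp [Solves]

theorem val_vr (σ : ℕ → M) (t i : ℕ) : val σ [vr t i] = σ (Nat.pair t i) := by
  simp [val, vr]

theorem val_c (σ : ℕ → M) : val σ [Sum.inl 2] = c := by
  simp [val, c]

theorem solves_mulEqs {σ : ℕ → M} {wx wz : Wd} {y t q : ℕ} :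
    Solves σ (mulEqs wx wz y t q) ↔
      σ (Nat.pair t q) * (val σ wx * val σ wx * u) = (val σ wx * val σ wx * u) * σ (Nat.pair t q) ∧
      σ (Nat.pair (t + 1) q) * (kap * σ (Nat.pair t q)) * σ (Nat.pair (t + 2) q) = 1 ∧
      σ (Nat.pair (t + 1) q) * σ (Nat.pair (t + 2) q) *
        (kap * (val σ wz * val σ wz * σ (Nat.pair 1 y))) = 1 := by
  simp only [mulEqs, solves_cons, solves_nil, and_true, val_append, val_vr, val_wu, val_wk,
    val_nil]

/-- The number encoded by the variable `i`. -/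
def Enc (σ : ℕ → M) (i n : ℕ) : Prop := σ (Nat.pair 0 i) = c ^ n ∧ σ (Nat.pair 1 i) = u ^ n

theorem nf_pow_c (n : ℕ) : nf (c ^ n) = List.replicate n 2 := by
  rcases n with _ | n
  · simp [nf_one]
  · rw [pow_succ', nf_mul, nf_c, run_pow_c n [2] ⟨[], rfl, by simp⟩]
    rw [← List.replicate_succ']

theorem c_pow_inj {n m : ℕ} (h : c ^ n = c ^ m) : n = m := by
  have := congrArg (fun x => (nf x).length) h
  simpa [nf_pow_c] using this

theorem Enc.unique {σ : ℕ → M} {i n m : ℕ} (h : Enc σ i n) (h' : Enc σ i m) : n = m :=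
  c_pow_inj (h.1.symm.trans h'.1)

theorem enc_of_link {σ : ℕ → M} {i : ℕ} (h : Solves σ (linkEqs i)) : ∃ n, Enc σ i n := by
  rw [linkEqs, solves_cons, solves_cons, solves_mulEqs] at h
  obtain ⟨h1, h2, h3⟩ := h
  have e1 : σ (Nat.pair 0 i) * c = c * σ (Nat.pair 0 i) := by
    simpa [val, vr, c] using h1
  have e2 : σ (Nat.pair 1 i) * u = u * σ (Nat.pair 1 i) := by
    simpa only [val_append, val_vr, val_wu] using h2
  obtain ⟨n, hn⟩ := comm_c.1 e1
  obtain ⟨m, hm⟩ := comm_u.1 e2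
  rw [val_c, val_vr, hn, hm] at h3
  have h4 : n = 1 * m := by
    rw [← mul_iff]
    rw [pow_one]
    exact ⟨_, _, _, h3⟩
  rw [one_mul] at h4
  exact ⟨n, hn, by rw [hm, h4]⟩

theorem mul_of_mulEqs {σ : ℕ → M} {i j k q nx ny nz : ℕ} (hx : Enc σ i nx) (hy : Enc σ j ny)
    (hz : Enc σ k nz) (h : Solves σ (mulEqs [vr 0 i] [vr 0 k] j 5 q)) : nx * ny = nz := by
  rw [solves_mulEqs, val_vr, val_vr, hx.1, hy.2, hz.1] at h
  exact ((mul_iff nx ny nz).1 ⟨_, _, _, h⟩).symm

/-- From solutions over the monoid to solutions over the natural numbers. -/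
theorem exists_nat_of_solves {L : List Bas} {n : ℕ} {σ : ℕ → M} (h : Solves σ (sys L n)) :
    ∃ x : ℕ → ℕ, x 0 = n ∧ ∀ e ∈ L, e.holds x := by
  classical
  rw [sys, solves_cons, solves_append] at h
  obtain ⟨h1, h2, h3⟩ := h
  let x : ℕ → ℕ := fun i => if hi : ∃ k, Enc σ i k then hi.choose else 0
  have hx : ∀ i, Solves σ (linkEqs i) → Enc σ i (x i) := by
    intro i hi
    have := enc_of_link hi
    simp only [x, dif_pos this]
    exact this.choose_spec
  refine ⟨x, ?_, ?_⟩
  · have e0 := (hx 0 h2).1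
    have e1 : σ (Nat.pair 0 0) = c ^ n := by
      have := h1
      rw [val_vr] at this
      simpa [val_replicate, c] using this
    exact c_pow_inj (e0.symm.trans e1)
  · intro e he
    have h4 : Solves σ e.eqs := fun e' he' => h3 e' (List.mem_flatMap.2 ⟨e, he, he'⟩)
    cases e with
    | one i =>
      simp only [Bas.eqs, solves_append, solves_cons, solves_nil, and_true, val_vr, val_c] at h4
      have e1 := (hx i h4.1).1
      show x i = 1
      apply c_pow_inj
      rw [← e1, h4.2, pow_one]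
    | add i j k =>
      simp only [Bas.eqs, solves_append, solves_cons, solves_nil, and_true, val_vr] at h4
      obtain ⟨⟨⟨hi, hj⟩, hk⟩, h5⟩ := h4
      have h6 : σ (Nat.pair 0 i) * σ (Nat.pair 0 j) = σ (Nat.pair 0 k) := by
        simpa [val, vr] using h5
      rw [(hx i hi).1, (hx j hj).1, (hx k hk).1, ← pow_add] at h6
      exact c_pow_inj h6
    | mul i j k =>
      simp only [Bas.eqs, solves_append] at h4
      obtain ⟨⟨⟨hi, hj⟩, hk⟩, h5⟩ := h4
      exact mul_of_mulEqs (hx i hi) (hx j hj) (hx k hk) h5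

/-- From solutions over the natural numbers to solutions over the monoid. -/
theorem exists_solves_of_nat {L : List Bas} {n : ℕ} {x : ℕ → ℕ} (h0 : x 0 = n)
    (hL : ∀ e ∈ L, e.holds x) : ∃ σ : ℕ → M, Solves σ (sys L n) := by
  have H : ∀ n m : ℕ, ∃ y x v : M, y * (c ^ n * c ^ n * u) = (c ^ n * c ^ n * u) * y ∧
      x * (kap * y) * v = 1 ∧ x * v * (kap * (c ^ (n * m) * c ^ (n * m) * u ^ m)) = 1 :=
    fun n m => (mul_iff n m (n * m)).2 rfl
  choose Y X V hY hX hV using H
  let σ : ℕ → M := fun k =>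
    match (Nat.unpair k).1 with
    | 0 => c ^ x (Nat.unpair k).2
    | 1 => u ^ x (Nat.unpair k).2
    | 2 => Y 1 (x (Nat.unpair k).2)
    | 3 => X 1 (x (Nat.unpair k).2)
    | 4 => V 1 (x (Nat.unpair k).2)
    | 5 => Y (x (Nat.unpair (Nat.unpair k).2).1) (x (Nat.unpair (Nat.unpair (Nat.unpair k).2).2).1)
    | 6 => X (x (Nat.unpair (Nat.unpair k).2).1) (x (Nat.unpair (Nat.unpair (Nat.unpair k).2).2).1)
    | _ => V (x (Nat.unpair (Nat.unpair k).2).1) (x (Nat.unpair (Nat.unpair (Nat.unpair k).2).2).1)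
  have s0 : ∀ i, σ (Nat.pair 0 i) = c ^ x i := fun i => by simp [σ]
  have s1 : ∀ i, σ (Nat.pair 1 i) = u ^ x i := fun i => by simp [σ]
  have s2 : ∀ i, σ (Nat.pair 2 i) = Y 1 (x i) := fun i => by simp [σ]
  have s3 : ∀ i, σ (Nat.pair 3 i) = X 1 (x i) := fun i => by simp [σ]
  have s4 : ∀ i, σ (Nat.pair 4 i) = V 1 (x i) := fun i => by simp [σ]
  have s5 : ∀ i j k, σ (Nat.pair 5 (Nat.pair i (Nat.pair j k))) = Y (x i) (x j) :=
    fun i j k => by simp [σ]
  have s6 : ∀ i j k, σ (Nat.pair 6 (Nat.pair i (Nat.pair j k))) = X (x i) (x j) :=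
    fun i j k => by simp [σ]
  have s7 : ∀ i j k, σ (Nat.pair 7 (Nat.pair i (Nat.pair j k))) = V (x i) (x j) :=
    fun i j k => by simp [σ]
  have hlink : ∀ i, Solves σ (linkEqs i) := by
    intro i
    rw [linkEqs, solves_cons, solves_cons, solves_mulEqs]
    refine ⟨?_, ?_, ?_⟩
    · have : σ (Nat.pair 0 i) * c = c * σ (Nat.pair 0 i) := by
        rw [s0]; exact (Commute.pow_self c _).eq
      simpa [val, vr, c] using this
    · have : σ (Nat.pair 1 i) * u = u * σ (Nat.pair 1 i) := by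
        rw [s1]; exact (Commute.pow_self u _).eq
      simpa only [val_append, val_vr, val_wu] using this
    · rw [val_c, val_vr, s0, s1, s2, s3, s4]
      have h1 := hY 1 (x i)
      have h2 := hX 1 (x i)
      have h3 := hV 1 (x i)
      rw [pow_one] at h1
      rw [one_mul] at h3
      exact ⟨h1, h2, h3⟩
  refine ⟨σ, ?_⟩
  rw [sys, solves_cons, solves_append]
  refine ⟨?_, hlink 0, ?_⟩
  · rw [val_vr, s0, h0, val_replicate]
    rfl
  · intro e' he'
    obtain ⟨e, he, he'⟩ := List.mem_flatMap.1 he'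
    have hh := hL e he
    have : Solves σ e.eqs := by
      cases e with
      | one i =>
        simp only [Bas.eqs, solves_append, solves_cons, solves_nil, and_true, val_vr, val_c]
        refine ⟨hlink i, ?_⟩
        have : x i = 1 := hh
        rw [s0, this, pow_one]
      | add i j k =>
        simp only [Bas.eqs, solves_append, solves_cons, solves_nil, and_true, val_vr]
        refine ⟨⟨⟨hlink i, hlink j⟩, hlink k⟩, ?_⟩
        have : x i + x j = x k := hh
        have h6 : σ (Nat.pair 0 i) * σ (Nat.pair 0 j) = σ (Nat.pair 0 k) := by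
          rw [s0, s0, s0, ← pow_add, this]
        simpa [val, vr] using h6
      | mul i j k =>
        simp only [Bas.eqs, solves_append]
        refine ⟨⟨⟨hlink i, hlink j⟩, hlink k⟩, ?_⟩
        have : x i * x j = x k := hh
        rw [solves_mulEqs, val_vr, val_vr, s0, s0, s1, s5, s6, s7, ← this]
        exact ⟨hY _ _, hX _ _, hV _ _⟩
    exact this e' he'

theorem solvable_iff (L : List Bas) (n : ℕ) :
    (∃ σ : ℕ → M, Solves σ (sys L n)) ↔ ∃ x : ℕ → ℕ, x 0 = n ∧ ∀ e ∈ L, e.holds x :=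
  ⟨fun ⟨_, h⟩ => exists_nat_of_solves h, fun ⟨_, h0, h⟩ => exists_solves_of_nat h0 h⟩

end Pool.Agent.H14.Dio
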